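import Pool.Agent.P8H80.QN.Stm

/-!
# Project QN (helper80), package MAX (helper43)
-/

set_option autoImplicit false

namespace Pool.Agent.P8H43.QN

open Pool.Agent.P8H80.QN

theorem t_MAX : S_MAX := by
  intro n T hn
  set f : E n → ℝ := fun z => ‖T z‖ ^ 2 - ‖inner ℂ z (T z)‖ ^ 2 with hf
  have hcont : Continuous f := by
    have h1 : Continuous (fun z : E n => ‖T z‖ ^ 2) := T.continuous.norm.pow 2
    have h2 : Continuous (fun z : E n => ‖inner ℂ z (T z)‖ ^ 2) :=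
      (continuous_id.inner T.continuous).norm.pow 2
    exact h1.sub h2
  have hne : (Metric.sphere (0 : E n) 1).Nonempty :=
    ⟨EuclideanSpace.single (⟨0, hn⟩ : Fin n) (1 : ℂ), by simp⟩
  obtain ⟨x, hx, hmax⟩ := (isCompact_sphere (0 : E n) 1).exists_isMaxOn hne hcont.continuousOn
  refine ⟨x, by simpa using hx, fun z => ?_⟩
  rcases eq_or_ne z 0 with rfl | hz
  · simp
  · have hc : 0 < ‖z‖ := norm_pos_iff.2 hz
    obtain ⟨y, hy, hzy⟩ : ∃ y : E n, ‖y‖ = 1 ∧ z = ((‖z‖ : ℝ) : ℂ) • y := by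
      refine ⟨((‖z‖⁻¹ : ℝ) : ℂ) • z, ?_, ?_⟩
      · rw [norm_smul, Complex.norm_real, Real.norm_eq_abs, abs_of_pos (inv_pos.2 hc),
          inv_mul_cancel₀ hc.ne']
      · rw [smul_smul, ← Complex.ofReal_mul, mul_inv_cancel₀ hc.ne', Complex.ofReal_one, one_smul]
    have h1 : f y ≤ f x := hmax (by simpa using hy)
    set c : ℝ := ‖z‖ with hcdef
    have e1 : ‖T z‖ = c * ‖T y‖ := by
      rw [hzy, map_smul, norm_smul, Complex.norm_real, Real.norm_eq_abs, abs_of_pos hc]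
    have e2 : ‖inner ℂ z (T z)‖ = c ^ 2 * ‖inner ℂ y (T y)‖ := by
      rw [hzy, map_smul, inner_smul_left, inner_smul_right, norm_mul, norm_mul,
        Complex.conj_ofReal, Complex.norm_real, Real.norm_eq_abs, abs_of_pos hc]
      ring
    rw [e1, e2]
    have h2 : c ^ 4 * f y ≤ c ^ 4 * f x := mul_le_mul_of_nonneg_left h1 (by positivity)
    simp only [hf] at h2
    calc (c * ‖T y‖) ^ 2 * c ^ 2 - (c ^ 2 * ‖inner ℂ y (T y)‖) ^ 2
        = c ^ 4 * (‖T y‖ ^ 2 - ‖inner ℂ y (T y)‖ ^ 2) := by ring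
      _ ≤ c ^ 4 * (‖T x‖ ^ 2 - ‖inner ℂ x (T x)‖ ^ 2) := h2
      _ = _ := by ring

end Pool.Agent.P8H43.QN
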